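import Pool.Agent.H561R2.RK.Main
import Pool.Agent.H561R2.CF.Grammar

/-!
# A context-free language which is hard for decomposable circuits of small rank

Decomposable circuits (`Circ`) with OR gates, decision gates and AND gates whose inputs depend on
disjoint sets of letters. Rank 0 (no AND gates) gives the nondeterministic read-once branching
programs; in a circuit of rank at most `q + 1` one input of each AND gate is a circuit of rank at
most `q`. The circuits of Cocke, Younger and Kasami show that every context-free language has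
decomposable circuits of size `O(n ^ 3)` and rank at most `log n`. For the language below the size
`n ^ (c log n / (q + 1))` is necessary for circuits of rank `q`.
-/

namespace Pool.Agent.Results.MP_6216ea_lc.CircuitRank

open Pool.Agent.H561R2.RO Pool.Agent.H561R2.CF Pool.Agent.H561R2.RK

theorem result : ∃ (Γ : Type) (_ : Fintype Γ) (L : Language Γ), L.IsContextFree ∧
    ∀ k n : ℕ, 1 ≤ k → 240 * k ≤ Nat.log 2 n →
      ∃ F : Finset (Fin n → Γ), F.Nonempty ∧ (∀ w ∈ F, List.ofFn w ∈ L) ∧
        ∀ (q S b : ℕ) (C : Circ (Fin n) Γ S) (out : Fin S), RankLE C q → C.LeafLE b →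
          b ^ k ≤ n ^ (k - 1) → (∀ w, C.Acc w out → List.ofFn w ∈ L) →
          2 ^ ((Nat.log 2 n) ^ 2 / (200 * k ^ 2 * (q + 1))) *
            {w : Fin n → Γ | w ∈ F ∧ C.Acc w out}.ncard ≤ S * F.card := by
  classical
  refine ⟨Lt, inferInstance, mach.language, isContextFree, fun k n hk hn => ?_⟩
  obtain ⟨F, h1, h2, h3⟩ := Pool.Agent.H561R2.RK.main hk hn
  refine ⟨F, h1, h2, fun q S b C out hC hleaf hb hL => ?_⟩
  have h4 := h3 q S b C out hC hleaf hb hL
  have h5 : {w : Fin n → Lt | w ∈ F ∧ C.Acc w out} = ↑(F.filter fun w => C.Acc w out) := by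
    ext w
    simp
  rw [h5, Set.ncard_coe_finset]
  exact h4

end Pool.Agent.Results.MP_6216ea_lc.CircuitRank
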