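import Pool.Agent.H589R2.MNL.TreeLB
import Pool.Agent.H589R2.MNL.Mach2
import Pool.Agent.H589R2.MNL.RoundsDef

/-!
# Context-free languages need almost `log₂ n` NOT gates in the nondeterministic log-space model

A monotone pushdown automaton whose language cannot be decided by polynomial size nondeterministic
branching programs using at most `(1 - ε) log₂ n` negations.
-/

namespace Pool.Agent.Results.MP_6216ea_lc.FewNegationsCF

open Pool.Agent.H589R2.MNL Filter Topology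

theorem pow_half (Q : ℕ) (hQ : 1 ≤ Q) (k : ℕ) : (1 - 1 / (Q : ℝ)) ^ (Q * k) ≤ (1 / 2 : ℝ) ^ k := by
  have hQ' : (0 : ℝ) < Q := by exact_mod_cast hQ
  have h0 : (0 : ℝ) ≤ 1 - 1 / (Q : ℝ) := by
    rw [sub_nonneg, div_le_one hQ']; exact_mod_cast hQ
  rw [pow_mul]
  refine pow_le_pow_left₀ (pow_nonneg h0 _) ?_ k
  have h1 : 1 - 1 / (Q : ℝ) ≤ Real.exp (-(1 / (Q : ℝ))) := Real.one_sub_le_exp_neg _
  calc (1 - 1 / (Q : ℝ)) ^ Q ≤ (Real.exp (-(1 / (Q : ℝ)))) ^ Q := pow_le_pow_left₀ h0 h1 Q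
    _ = Real.exp (-1) := by
      rw [← Real.exp_nat_mul]
      congr 1
      field_simp
    _ ≤ 1 / 2 := by
      have := Real.exp_neg_one_lt_d9
      linarith

/-- Polynomials in `L` are eventually below `2 ^ L`. -/
theorem poly_lt_pow (c K e : ℕ) : ∃ L0 : ℕ, ∀ L ≥ L0, c * (K * L + 1) ^ e < 2 ^ L := by
  have h := tendsto_pow_const_mul_const_pow_of_abs_lt_one (r := (1 / 2 : ℝ)) e
    (by rw [abs_of_pos] <;> norm_num)
  obtain ⟨Z, hZ⟩ : ∃ Z : ℕ, Z = c * (K + 1) ^ e := ⟨_, rfl⟩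
  have h2 := h.eventually (gt_mem_nhds (show (0 : ℝ) < 1 / (Z + 1) by positivity))
  obtain ⟨L1, hL1⟩ := Filter.eventually_atTop.1 h2
  refine ⟨L1 + 1, fun L hL => ?_⟩
  have hLpos : 1 ≤ L := by omega
  have h3 := hL1 L (by omega)
  have h4 : c * (K * L + 1) ^ e ≤ Z * L ^ e := by
    have h5 : K * L + 1 ≤ (K + 1) * L := by nlinarith
    calc c * (K * L + 1) ^ e ≤ c * ((K + 1) * L) ^ e := by gcongr
      _ = Z * L ^ e := by rw [hZ, mul_pow, mul_assoc]
  refine lt_of_le_of_lt h4 ?_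
  have h5 : (Z : ℝ) * (L : ℝ) ^ e < (2 : ℝ) ^ L := by
    rw [lt_div_iff₀ (by positivity)] at h3
    have h8 : (1 / 2 : ℝ) ^ L * 2 ^ L = 1 := by rw [← mul_pow]; norm_num
    have h10 : (0 : ℝ) < 2 ^ L := by positivity
    have h11 : (L : ℝ) ^ e * (Z + 1) < 2 ^ L := by
      calc (L : ℝ) ^ e * (Z + 1)
          = (L : ℝ) ^ e * (1 / 2) ^ L * (Z + 1) * 2 ^ L := by
            rw [show (L : ℝ) ^ e * (1 / 2) ^ L * (Z + 1) * 2 ^ L
              = (L : ℝ) ^ e * (Z + 1) * ((1 / 2) ^ L * 2 ^ L) by ring, h8, mul_one]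
        _ < 1 * 2 ^ L := mul_lt_mul_of_pos_right h3 h10
        _ = 2 ^ L := one_mul _
    have h12 : (0 : ℝ) ≤ (L : ℝ) ^ e := by positivity
    nlinarith
  exact_mod_cast h5

/-- The lower bound for a single program. -/
theorem single (E n₀ : ℕ) : ∃ h s : ℕ, n₀ ≤ s ∧ 1 ≤ s ∧ ∀ m, m = 2 ^ s →
    ∀ r ≤ 2 ^ ((h + 5 + 4 * s) * E + 2), ∀ P : NBP (Vr m) r, (∀ x, Good h x → P.Accepts x) → ¬ ∀ S, ¬ P.Accepts (xneg h S) := by
  classical
  obtain ⟨nn, hnn⟩ : ∃ nn, nn = 4 * E + 1 := ⟨_, rfl⟩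
  obtain ⟨h, hh⟩ : ∃ h, h = 2 * nn := ⟨_, rfl⟩
  obtain ⟨v, hv⟩ : ∃ v, v = Fintype.card (Nd h) := ⟨_, rfl⟩
  have hv1 : 1 ≤ v := by
    rw [hv]
    exact Fintype.card_pos_iff.2 ⟨⟨[], by simp⟩⟩
  obtain ⟨K, hK⟩ : ∃ K, K = 4 * E + v + ((h + 5) * E + 2) + 3 * v + 1 := ⟨_, rfl⟩
  obtain ⟨c, hc⟩ : ∃ c, c = 2 ^ ((h + 5) * E + 2) * 2 ^ 2 ^ (2 * v) * (v * 2 ^ v) ^ v := ⟨_, rfl⟩
  obtain ⟨L0, hL0⟩ := poly_lt_pow c K v
  obtain ⟨s, hs⟩ : ∃ s, s = max (max L0 n₀) 1 := ⟨_, rfl⟩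
  have hs1 : 1 ≤ s := by rw [hs]; exact le_max_right _ _
  have hsL : L0 ≤ s := by rw [hs]; exact (le_max_left _ _).trans (le_max_left _ _)
  have hsn : n₀ ≤ s := by rw [hs]; exact (le_max_right _ _).trans (le_max_left _ _)
  refine ⟨h, s, hsn, hs1, fun m hm r hr P hP1 hP2 => ?_⟩
  have hm1 : 1 ≤ m := by rw [hm]; exact Nat.one_le_two_pow
  obtain ⟨t, ht⟩ : ∃ t, t = ((h + 5 + 4 * s) * E + 2) + 3 * v + s * v + 1 := ⟨_, rfl⟩
  have hQ1 : 1 ≤ 2 ^ v := Nat.one_le_two_pow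
  have hkey := lifting (V := Nd h) (m := m) (J := Option (List Bool)) (Var := Vr m)
    (fun j c => viol h j (ext h c)) (by rw [← hv]; exact hv1) hm1
    (fun j l => yv hm1 h j l) (fun l => xpos hm1 h l)
    (fun l z hz => (xpos_iff hm1 h l z).1 hz)
    (fun S => xneg h S) (fun S j l hvl => xneg_of hm1 h S j l hvl) (nn + 1)
    (by subst hh; exact hard_tree nn) P
    (by
      intro l
      apply hP1
      refine ⟨lext hm1 h l [], der_xpos hm1 h l h [] (by simp), ?_⟩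
      rw [xpos_iff]
      exact ⟨none, rfl⟩)
    hP2
    (ε := (1 / 2 : ℝ) ^ t) (by positivity) (p := 2 ^ v * t)
    (by
      have : 1 ≤ t := by rw [ht]; omega
      exact Nat.mul_le_mul hQ1 this)
    (by
      rw [← hv]
      have h1 := pow_half (2 ^ v) hQ1 t
      have h2 : (1 / 2 : ℝ) ^ v = 1 / ((2 ^ v : ℕ) : ℝ) := by
        push_cast
        rw [div_pow, one_pow]
      rw [h2]
      exact h1)
    (by
      rw [← hv]
      have h1 : r * (2 ^ v * (m ^ v * 2 ^ v))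
          ≤ 2 ^ (((h + 5 + 4 * s) * E + 2) + 2 * v + s * v) := by
        calc r * (2 ^ v * (m ^ v * 2 ^ v))
            ≤ 2 ^ ((h + 5 + 4 * s) * E + 2) * (2 ^ v * (m ^ v * 2 ^ v)) :=
              Nat.mul_le_mul_right _ hr
          _ = _ := by
            rw [hm, ← pow_mul, ← pow_add, ← pow_add, ← pow_add]
            congr 1
            ring
      have h2 : ((r * (2 ^ v * (m ^ v * 2 ^ v)) : ℕ) : ℝ)
          ≤ (2 : ℝ) ^ (((h + 5 + 4 * s) * E + 2) + 2 * v + s * v) := by exact_mod_cast h1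
      have h3 : (0 : ℝ) < (1 / 2) ^ t := by positivity
      have h4 : (1 / 2 : ℝ) ^ t = (1 / 2) ^ (((h + 5 + 4 * s) * E + 2) + 2 * v + s * v)
          * ((1 / 2) ^ v * (1 / 2)) := by
        rw [ht, ← pow_succ, ← pow_add]
        congr 1
        ring
      calc ((r * (2 ^ v * (m ^ v * 2 ^ v)) : ℕ) : ℝ) * (1 / 2) ^ t
          ≤ (2 : ℝ) ^ (((h + 5 + 4 * s) * E + 2) + 2 * v + s * v) * (1 / 2) ^ t :=
            mul_le_mul_of_nonneg_right h2 h3.le
        _ = ((2 : ℝ) ^ (((h + 5 + 4 * s) * E + 2) + 2 * v + s * v)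
            * (1 / 2) ^ (((h + 5 + 4 * s) * E + 2) + 2 * v + s * v)) * ((1 / 2) ^ v * (1 / 2)) := by
            rw [h4]; ring
        _ = (1 / 2) ^ v * (1 / 2) := by
            rw [← mul_pow]
            norm_num
        _ < (1 / 2) ^ v := by
            have : (0 : ℝ) < (1 / 2) ^ v := by positivity
            linarith)
  rw [← hv] at hkey
  -- arithmetic
  have hbig : 2 ^ (s * (nn + 1)) ≤ 2 ^ (4 * E * s) * (c * (K * s + 1) ^ v) := by
    have ht2 : t ≤ K * s + 1 := by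
      have h1 : ((h + 5) * E + 2) ≤ ((h + 5) * E + 2) * s := Nat.le_mul_of_pos_right _ hs1
      have h2 : 3 * v ≤ 3 * v * s := Nat.le_mul_of_pos_right _ hs1
      rw [ht, hK]
      nlinarith
    calc 2 ^ (s * (nn + 1)) = m ^ (nn + 1) := by rw [hm, ← pow_mul]
      _ ≤ r * (2 ^ 2 ^ (2 * v) * (v * (2 ^ v * t)) ^ v) := hkey
      _ ≤ 2 ^ ((h + 5 + 4 * s) * E + 2)
          * (2 ^ 2 ^ (2 * v) * (v * (2 ^ v * (K * s + 1))) ^ v) := by
          gcongr
      _ = _ := by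
          rw [hc]
          have e1 : (h + 5 + 4 * s) * E + 2 = 4 * E * s + ((h + 5) * E + 2) := by ring
          have e2 : v * (2 ^ v * (K * s + 1)) = (v * 2 ^ v) * (K * s + 1) := by ring
          rw [e1, pow_add, e2, mul_pow]
          ring
  have hsmall := hL0 s hsL
  have h1 : 2 ^ (s * (nn + 1)) < 2 ^ (4 * E * s) * 2 ^ s := by
    refine lt_of_le_of_lt hbig ?_
    exact Nat.mul_lt_mul_of_pos_left hsmall (by positivity)
  rw [← pow_add] at h1
  have h2 := (Nat.pow_lt_pow_iff_right (show 1 < 2 by norm_num)).1 h1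
  rw [hnn] at h2
  nlinarith

/-- **Almost `log₂ n` negations are needed to put the context-free languages into NL.** -/
theorem result : ∃ (Sig : Type) (_ : Fintype Sig) (M : PDA (Sig → Bool)),
    (∀ q a b z, a ≤ b → M.δ q a z ⊆ M.δ q b z) ∧
    ∀ e k n₀ : ℕ, ∃ n ≥ n₀, ∀ R : Rounds (Fin n × Sig),
      (∀ A, R.size A ≤ n ^ e) →
      (∀ W : Fin n → Sig → Bool, R.Accepts (fun y => W y.1 y.2) ↔ M.Accepts (List.ofFn W)) →
      n ^ k ≤ (∏ i ∈ Finset.range R.d, (R.w i + 1)) ^ (k + 1) := by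
  classical
  refine ⟨Option Sy, inferInstance, mach2, fun q a b z h => mach2_mono q a b z h,
    fun e k n₀ => ?_⟩
  obtain ⟨h, s, hsn, hs1, hsingle⟩ := single ((k + 1) * e) n₀
  obtain ⟨m, hm⟩ : ∃ m, m = 2 ^ s := ⟨_, rfl⟩
  have hm1 : 1 ≤ m := by rw [hm]; exact Nat.one_le_two_pow
  have hnm : n₀ ≤ m := by
    rw [hm]; exact hsn.trans Nat.lt_two_pow_self.le
  obtain ⟨b, hb⟩ : ∃ b, b = (senc m h).length + 1 := ⟨_, rfl⟩
  obtain ⟨B, hB⟩ : ∃ B, B = 2 ^ (h + 5 + 4 * s) := ⟨_, rfl⟩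
  have hbB : b ≤ B := by
    have h1 := length_senc hm1 h
    have h2 : 2 ^ (h + 4) * m ^ 4 = 2 ^ (h + 4 + 4 * s) := by
      rw [hm, ← pow_mul, ← pow_add]
      congr 1
      ring
    rw [h2] at h1
    have h3 : 1 ≤ 2 ^ (h + 4 + 4 * s) := Nat.one_le_two_pow
    have h4 : 2 ^ (h + 5 + 4 * s) = 2 * 2 ^ (h + 4 + 4 * s) := by ring
    rw [hb, hB, h4]
    omega
  obtain ⟨M, hM⟩ : ∃ M, M = B ^ k := ⟨_, rfl⟩
  have hB1 : 1 ≤ B := by rw [hB]; exact Nat.one_le_two_pow
  have hM1 : 1 ≤ M := by rw [hM]; exact Nat.one_le_pow _ _ hB1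
  have hlen : (sblks m M h).length = M * b := by rw [length_sblks, hb]
  have hnn : n₀ ≤ (sblks m M h).length := by
    rw [hlen]
    have h1 := le_length_senc (m := m) h
    have h2 : b ≤ M * b := Nat.le_mul_of_pos_left b hM1
    omega
  refine ⟨(sblks m M h).length, hnn, fun R hsize hR => ?_⟩
  have hn : (sblks m M h).length ≤ B ^ (k + 1) := by
    rw [hlen, hM, pow_succ]
    exact Nat.mul_le_mul_left _ hbB
  have hlow : M + 1 ≤ ∏ i ∈ Finset.range R.d, (R.w i + 1) := by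
    by_contra hlt
    have hprod : ∏ i ∈ Finset.range R.d, (R.w i + 1) ≤ M := by omega
    -- the programs on systems
    set ρ : Fin (sblks m M h).length × Option Sy → Bool ⊕ (Fin M × Vr m) :=
      fun z => (sblks m M h).get z.1 z.2 with hρ
    have hword : ∀ X : Fin M × Vr m → Bool,
        List.ofFn (fun i : Fin (sblks m M h).length =>
          fun o => Sum.elim id X ((sblks m M h).get i o))
        = ((List.finRange M).map (fun j => fun v => X (j, v))).flatMap (blk h) := by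
      intro X
      rw [← ev_sblks]
      exact (List.map_ofFn (f := (sblks m M h).get)
        (g := fun g o => Sum.elim id X (g o))).symm.trans (by rw [List.ofFn_get])
    have hgood : ∀ X : Fin M × Vr m → Bool,
        mach2.Accepts (List.ofFn (fun i : Fin (sblks m M h).length =>
          fun o => Sum.elim id X ((sblks m M h).get i o))) ↔
        ∃ j, Good h (fun v => X (j, v)) := by
      intro X
      rw [hword, mach2_accepts]
      simp [List.mem_map]
    have hx : ∀ X : Fin M × Vr m → Bool, (fun y : Fin (sblks m M h).length × Option Sy =>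
        (fun (i : Fin (sblks m M h).length) (o : Option Sy) =>
          Sum.elim id X ((sblks m M h).get i o)) y.1 y.2) = fun z => Sum.elim id X (ρ z) := by
      intro X
      rfl
    obtain ⟨r, P, hr, hP1, hP2⟩ := transfer (M := M) (g := Good h) (neg := fun S => xneg h S)
      (fun S hg => by
        obtain ⟨a, h1, h2⟩ := hg
        have h3 := der_xneg h S h [] a (by simp) h1
        have h4 : (!(sv h S [] a)) = true := h2
        rw [h3] at h4
        simp at h4)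
      (fun hg => by
        obtain ⟨a, _, h2⟩ := hg
        exact absurd h2 (by simp))
      R.d R.w (fun i k A => (R.N i k A).pull ρ)
      (fun i k A A' hag => by simp only [R.dep i k A A' hag])
      ((sblks m M h).length ^ e) (fun A => hsize A)
      (fun X => by
        obtain ⟨A, hA⟩ := R.exists_answers (fun z => Sum.elim id X (ρ z))
        refine ⟨A, fun i hi k hk => ?_, ?_⟩
        · rw [Net.pull_accepts]
          exact hA i hi k hk
        · rw [Net.pull_accepts, ← R.accepts_iff hA, ← hgood X, ← hR, hx X])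
      hprod
    refine hsingle m hm r ?_ P hP1 hP2
    refine hr.trans ?_
    have h1 : (sblks m M h).length ^ e ≤ 2 ^ ((h + 5 + 4 * s) * ((k + 1) * e)) := by
      calc (sblks m M h).length ^ e ≤ (B ^ (k + 1)) ^ e := Nat.pow_le_pow_left hn e
        _ = 2 ^ ((h + 5 + 4 * s) * ((k + 1) * e)) := by
          rw [hB, ← pow_mul, ← pow_mul]
    have h2 : 1 ≤ 2 ^ ((h + 5 + 4 * s) * ((k + 1) * e)) := Nat.one_le_two_pow
    have h3 : 2 ^ ((h + 5 + 4 * s) * ((k + 1) * e) + 2)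
        = 4 * 2 ^ ((h + 5 + 4 * s) * ((k + 1) * e)) := by rw [pow_add]; ring
    omega
  have hbM : b ^ k ≤ M := by
    rw [hM]
    exact Nat.pow_le_pow_left hbB k
  calc (sblks m M h).length ^ k = M ^ k * b ^ k := by rw [hlen, mul_pow]
    _ ≤ M ^ k * M := Nat.mul_le_mul_left _ hbM
    _ = M ^ (k + 1) := (pow_succ _ _).symm
    _ ≤ (∏ i ∈ Finset.range R.d, (R.w i + 1)) ^ (k + 1) :=
        Nat.pow_le_pow_left (by omega) _

end Pool.Agent.Results.MP_6216ea_lc.FewNegationsCF
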