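import Pool.Agent.H870R2.LS.TMain
import Pool.Agent.H870R2.LS.TreeUp
import Pool.Agent.H870R2.LS.TreeNet

set_option autoImplicit false

/-! # Local symmetry: tree evaluation separates LOGCFL from NL

The tree evaluation problem `TreeDer h q` reads a path system on `q` labels for each node of the
binary tree of height `h` (the nodes are `1, …, 2 ^ (h + 1) - 1`, the children of `v` are `2 v` and
`2 v + 1`) and a target, all of whose rules lead from a label of the left child and a label of the
right child to a label of a node, and says if its target is derivable.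

(1) It is decided by semi-unbounded circuits (AND, OR; AND gates of fan-in at most `3`; literals
at the inputs) with layers `0, …, 2 h + 2` and at most `2 ^ (h + 3) * q ^ 3` gates that are
symmetric under all permutations of the labels of each node.
(2) Let `q ≥ 5` be odd. A circuit whose gates compute arbitrary functions of the numbers of walks
in networks (arcs controlled by literals and gates of lower rank) that decides it, is symmetric
under the even permutations of the labels of each node `v < 2 ^ (R + 1)`, `R ≤ h`, and whose output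
has rank `d` with `13 m (d + 1) ≤ R`, `m ≥ 1`, has at least `q ^ m` gates and nodes.
(3) It is decided by nondeterministic switching networks with at most `(2 q) ^ (h + 1) + 2` nodes
that are symmetric under all permutations of the labels of each node. -/

namespace Pool.Agent.Results.MP_6216ea_lc.LocalTreeEval

open Pool.Agent.H870R2.LS

theorem result :
    (∀ (h q : ℕ) [NeZero q],
      ∃ (Q : Type) (_ : Fintype Q) (C : LCkt (Inp (EEl h q)) Q),
        (∀ x, C.Val x C.out ↔ TreeDer h q x) ∧
        (∀ g, C.conj g = true → (C.ins g).ncard ≤ 3) ∧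
        (∀ g, C.lay g ≤ 2 * h + 2) ∧
        Fintype.card Q ≤ 2 ^ (h + 3) * q ^ 3 ∧
        (∀ (v : Fin (2 ^ (h + 1))) (a : Equiv.Perm (ZMod q)) (p : Equiv.Perm (EEl h q)),
          (∀ c, p (eblk v c) = eblk v (a c)) → (∀ u, u ∉ Set.range (eblk v) → p u = u) →
          ∃ φ, C.IsAut (inpPerm p) φ)) ∧
    (∀ (h q R : ℕ) [NeZero q], 5 ≤ q → Odd q → R ≤ h →
      ∀ (Q : Type) [Fintype Q] (C : Ckt (Inp (EEl h q)) Q),
        (∀ x, C.val x C.out = true ↔ TreeDer h q x) →
        (∀ v : Fin (2 ^ (h + 1)), v.val < 2 ^ (R + 1) → C.SymOnT (eblk (q := q) v)) →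
        ∀ m : ℕ, 1 ≤ m → 13 * m * (C.rank C.out + 1) ≤ R → q ^ m ≤ Fintype.card Q) ∧
    (∀ (h q : ℕ) [NeZero q],
      ∃ (Q : Type) (_ : Fintype Q) (N : SNet (Inp (EEl h q)) Q),
        (∀ x, N.Acc x ↔ TreeDer h q x) ∧
        Fintype.card Q ≤ (2 * q) ^ (h + 1) + 2 ∧
        (∀ (v : Fin (2 ^ (h + 1))) (a : Equiv.Perm (ZMod q)) (p : Equiv.Perm (EEl h q)),
          (∀ c, p (eblk v c) = eblk v (a c)) → (∀ u, u ∉ Set.range (eblk v) → p u = u) →
          ∃ φ, N.IsAut (inpPerm p) φ)) :=
  ⟨fun h q _ => tree_upper h q,
    fun h q R _ hq hodd hR Q _ C hC hs m hm hd => tree_lower hq hodd hR C hC hs m hm hd,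
    fun h q _ => tree_net h q⟩

end Pool.Agent.Results.MP_6216ea_lc.LocalTreeEval
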