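import Pool.Agent.H657R4.Asm

/-!
A language in the log-space closure of the context-free languages (the complement of a linear
language) without small nondeterministic weakly read-once linear branching programs.

The words of length `9 m + 1` outside the language of the grammar are codes of triples `(x, y, z)`
of polynomials over the field with four elements with `x, y` of degree `< m` and `z = x y`: the
grammar guesses a wrong coefficient of `z`. For the lower bound, cut accepting walks where the
codimension of `Pre v` has fallen to `2 m - 2 τ`; the words accepted through one edge into such a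
node satisfy: all but few of them lie, after a covering argument for the overlap, in one affine
subspace of large codimension, and the graph of multiplication has few points in it.
-/

namespace Pool.Agent.Results.MP_6216ea_lc.ReadOnceLinearPrograms

open Finset Module Pool.Agent.H657R3 Pool.Agent.H657R4 Pool.Agent.H540R2

/-- A nondeterministic linear branching program is weakly read-once if for every node `v` and every
walk from `v` to the accepting node the span of the forms tested on this walk meets `Pre v` (the
span of all the forms tested on walks from the source to `v`) only in `0`. -/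
def WeaklyReadOnce {V N E : Type} [AddCommGroup V] [Module (ZMod 2) V] (P : NLBP V N E) : Prop :=
  ∀ v es, P.Walk v es P.t → P.tests es ⊓ P.Pre v = ⊥

/-- For every crossing node `v` (where the codimension of `Pre v` falls to `c`) and every walk from
`v` to the accepting node, the span of the tests on the walk meets `Pre v` in dimension at most
`k`. -/
def Overlap {V N E : Type} [AddCommGroup V] [Module (ZMod 2) V] (P : NLBP V N E) (c k : ℕ) :
    Prop :=
  ∀ v, P.Crossing c v → ∀ es, P.Walk v es P.t → finrank (ZMod 2) ↥(P.tests es ⊓ P.Pre v) ≤ k

/-- The word of a vector over the field with two elements. -/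
def word {n : ℕ} (z : Fin n → ZMod 2) : List Bool := List.ofFn fun i => decide (z i = 1)

/-- The language has nondeterministic weakly read-once programs with `O(n²)` edges whose tests are
all on single letters. -/
def HasQuadraticPrograms (G : ContextFreeGrammar Bool) : Prop :=
  ∃ C : ℕ, ∀ n : ℕ, ∃ (N E : Type) (_ : Fintype E) (P : NLBP (Fin n → ZMod 2) N E),
    Fintype.card E ≤ C * (n + 1) ^ 2 ∧ (∀ e, P.q e = 0 ∨ ∃ i, P.q e = LinearMap.proj i) ∧
    WeaklyReadOnce P ∧ ∀ z, P.Accepts z ↔ word z ∈ G.language

/-- Every nondeterministic linear branching program of overlap at most `k` (at codimension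
`2 m - 2 τ`) that accepts only words of length `9 m + 1` outside the language accepts at most
`10 (|E| + 1) (∑_{i ≤ k} C(9 m + 1, i)) 16 ^ m / 4 ^ τ` words. -/
def ComplementBound (G : ContextFreeGrammar Bool) (m τ k : ℕ) : Prop :=
  ∀ (N E : Type) [Fintype E] (P : NLBP (Fin (9 * m + 1) → ZMod 2) N E),
    Overlap P (2 * m - 2 * τ) k → (∀ z, P.Accepts z → word z ∉ G.language) →
    {z | P.Accepts z}.ncard * 4 ^ τ ≤
      10 * (Fintype.card E + 1) * (∑ i ∈ range (k + 1), (9 * m + 1).choose i) * 16 ^ m

/-- **Part 1.** Every linear language has nondeterministic weakly read-once programs with `O(n²)`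
edges. **Part 2.** There is a linear grammar such that exactly `16 ^ m` words of length `9 m + 1`
are not in its language, and weakly read-once programs (`k = 0`), or programs of overlap at most
`k`, with few edges can accept only few of them. -/
theorem result :
    (∀ G : ContextFreeGrammar Bool, IsLinear G → HasQuadraticPrograms G) ∧
    ∃ G : ContextFreeGrammar Bool, IsLinear G ∧ ∀ m : ℕ,
      {z : Fin (9 * m + 1) → ZMod 2 | word z ∉ G.language}.ncard = 16 ^ m ∧
      ∀ τ k : ℕ, 16 * τ < m → ComplementBound G m τ k :=
  ⟨upper, main linStm genStm (fun K _ _ _ => pairsStm K) (fun K _ _ _ => sliceStm K)⟩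

end Pool.Agent.Results.MP_6216ea_lc.ReadOnceLinearPrograms
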